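import Pool.Agent.Y554.SN.Stm
import Pool.Agent.H389R2.NS.E2

/-! Sums over annuli of the integrated two-layer four-arm probability, sharp form (the proofs of
`Y554.DP.ann_sum_lam` without the loss of a logarithm). -/

set_option autoImplicit false

namespace Pool.Agent.Y785.SN

open H974 H12S H985T H389NS Finset E2x

/-- the exponent bound -/
theorem key_real_S {b c c1 c3 : ℝ} (hb : 0 < b) (hc : 0 < c) (hc3 : c ≤ c3)
    (hcb : 3 / 4 * c ≤ b) (h1 : 2 * b ≤ c1) {R κ d : ℕ} {g h C3 : ℝ} (hR : 64 ≤ R)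
    (hκ : κ = R / 8) (hd : 1 ≤ d) (hdκ : d ≤ κ) (hg : 0 ≤ g) (hC3 : 0 < C3) (hgC : g ≤ C3)
    (hh : 0 < h) (hgc : g ≤ C3 * (h * (d:ℝ) ^ (3 / 4 : ℝ)) ^ (-c3)) :
    ((d:ℝ) / κ) ^ (1 + c1) * (g / (d:ℝ) ^ 2) ≤
      9 ^ b * C3 * (h * (R:ℝ) ^ (3 / 4 : ℝ)) ^ (-c) * (((d:ℝ) / κ) ^ b * (9 / (R * d))) := by
  have hR1 : (1:ℝ) ≤ R := by exact_mod_cast (by omega : 1 ≤ R)
  have hR0 : (0:ℝ) < R := by linarith
  have hd1 : (1:ℝ) ≤ d := by exact_mod_cast hd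
  have hd0 : (0:ℝ) < d := by linarith
  have hκ1 : 1 ≤ κ := by omega
  have hκ0 : (0:ℝ) < κ := by exact_mod_cast hκ1
  have hdκ' : (d:ℝ) ≤ κ := by exact_mod_cast hdκ
  have hRκ : (R:ℝ) ≤ 9 * κ := by exact_mod_cast (by omega : R ≤ 9 * κ)
  have hdR : (d:ℝ) ≤ R := by exact_mod_cast (by omega : d ≤ R)
  have hdk : (d:ℝ) / κ ≤ 1 := by rw [div_le_one hκ0]; exact hdκ'
  have hdk0 : 0 < (d:ℝ) / κ := div_pos hd0 hκ0
  set Q : ℝ := (h * (R:ℝ) ^ (3 / 4 : ℝ)) ^ (-c) with hQ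
  have hQ0 : 0 < Q := by positivity
  have hhd : 0 < h * (d:ℝ) ^ (3 / 4 : ℝ) := by positivity
  -- the bound with the smaller exponent
  have s1 : g ≤ C3 * (h * (d:ℝ) ^ (3 / 4 : ℝ)) ^ (-c) := by
    by_cases hA : 1 ≤ h * (d:ℝ) ^ (3 / 4 : ℝ)
    · refine hgc.trans (mul_le_mul_of_nonneg_left ?_ hC3.le)
      exact Real.rpow_le_rpow_of_exponent_le hA (by linarith)
    · push Not at hA
      have h2 : (1:ℝ) ≤ (h * (d:ℝ) ^ (3 / 4 : ℝ)) ^ (-c) :=
        Real.one_le_rpow_of_pos_of_le_one_of_nonpos hhd hA.le (by linarith)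
      calc g ≤ C3 * 1 := by linarith
        _ ≤ _ := mul_le_mul_of_nonneg_left h2 hC3.le
  -- comparison of `d` and `R`
  have s2 : (h * (d:ℝ) ^ (3 / 4 : ℝ)) ^ (-c) ≤ Q * ((R:ℝ) / d) ^ b := by
    have e1 : h * (d:ℝ) ^ (3 / 4 : ℝ) = (h * (R:ℝ) ^ (3 / 4 : ℝ)) * ((d:ℝ) / R) ^ (3 / 4 : ℝ) := by
      rw [Real.div_rpow hd0.le hR0.le]
      field_simp
    have e2 : (((d:ℝ) / R) ^ (3 / 4 : ℝ)) ^ (-c) = ((R:ℝ) / d) ^ (3 / 4 * c) := by
      rw [← Real.rpow_mul (by positivity)]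
      have : (3 / 4 : ℝ) * -c = -(3 / 4 * c) := by ring
      rw [this, Real.rpow_neg (by positivity), ← Real.inv_rpow (by positivity), inv_div]
    rw [e1, Real.mul_rpow (by positivity) (by positivity), e2]
    apply mul_le_mul_of_nonneg_left _ hQ0.le
    apply Real.rpow_le_rpow_of_exponent_le _ hcb
    rw [one_le_div hd0]
    exact hdR
  have s3 : ((d:ℝ) / κ) ^ b * ((R:ℝ) / d) ^ b ≤ 9 ^ b := by
    rw [← Real.mul_rpow hdk0.le (by positivity)]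
    have e1 : (d:ℝ) / κ * (R / d) = R / κ := by
      field_simp
    rw [e1]
    apply Real.rpow_le_rpow (by positivity) _ hb.le
    rw [div_le_iff₀ hκ0]
    exact hRκ
  have claim : ((d:ℝ) / κ) ^ b * g ≤ 9 ^ b * C3 * Q := by
    have hp : 0 ≤ ((d:ℝ) / κ) ^ b := by positivity
    calc ((d:ℝ) / κ) ^ b * g ≤ ((d:ℝ) / κ) ^ b * (C3 * (Q * ((R:ℝ) / d) ^ b)) :=
          mul_le_mul_of_nonneg_left (s1.trans (mul_le_mul_of_nonneg_left s2 hC3.le)) hp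
      _ = (((d:ℝ) / κ) ^ b * ((R:ℝ) / d) ^ b) * (C3 * Q) := by ring
      _ ≤ 9 ^ b * (C3 * Q) := mul_le_mul_of_nonneg_right s3 (by positivity)
      _ = _ := by ring
  have e0 : ((d:ℝ) / κ) ^ (1 + c1) ≤ ((d:ℝ) / κ) ^ (1 + (b + b)) :=
    Real.rpow_le_rpow_of_exponent_ge hdk0 hdk (by linarith)
  have e1 : ((d:ℝ) / κ) ^ (1 + (b + b)) * (g / (d:ℝ) ^ 2) =
      (((d:ℝ) / κ) ^ b * g) * (((d:ℝ) / κ) ^ b * (1 / (κ * d))) := by
    rw [Real.rpow_add hdk0, Real.rpow_add hdk0, Real.rpow_one]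
    field_simp
  have e2 : 1 / ((κ:ℝ) * d) ≤ 9 / (R * d) := by
    rw [div_le_div_iff₀ (by positivity) (by positivity)]
    nlinarith
  calc ((d:ℝ) / κ) ^ (1 + c1) * (g / (d:ℝ) ^ 2) ≤
      ((d:ℝ) / κ) ^ (1 + (b + b)) * (g / (d:ℝ) ^ 2) :=
        mul_le_mul_of_nonneg_right e0 (by positivity)
    _ = (((d:ℝ) / κ) ^ b * g) * (((d:ℝ) / κ) ^ b * (1 / (κ * d))) := e1
    _ ≤ (9 ^ b * C3 * Q) * (((d:ℝ) / κ) ^ b * (9 / (R * d))) :=
        mul_le_mul claim (mul_le_mul_of_nonneg_left e2 (by positivity)) (by positivity)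
          (by positivity)
    _ = _ := by ring

/-- the depth instead of the radius -/
theorem depth_real {b : ℝ} (hb : 0 < b) (hb1 : b ≤ 1) {R κ d t : ℕ} (hR : 64 ≤ R)
    (hκ : κ = R / 8) (hd : 1 ≤ d) (ht : t + 1 ≤ 9 * d) :
    ((d:ℝ) / κ) ^ b * (9 / (R * d)) ≤ 81 * ((R:ℝ) ^ (-b) / R) * ((t:ℝ) + 1) ^ (b - 1) := by
  have hR1 : (1:ℝ) ≤ R := by exact_mod_cast (by omega : 1 ≤ R)
  have hR0 : (0:ℝ) < R := by linarith
  have hd1 : (1:ℝ) ≤ d := by exact_mod_cast hd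
  have hd0 : (0:ℝ) < d := by linarith
  have hκ1 : 1 ≤ κ := by omega
  have hκ0 : (0:ℝ) < κ := by exact_mod_cast hκ1
  have hRκ : (R:ℝ) ≤ 9 * κ := by exact_mod_cast (by omega : R ≤ 9 * κ)
  have ht' : (t:ℝ) + 1 ≤ 9 * d := by exact_mod_cast ht
  have ht0 : (0:ℝ) < (t:ℝ) + 1 := by positivity
  have e1 : (d:ℝ) ^ (b - 1) ≤ (((t:ℝ) + 1) / 9) ^ (b - 1) :=
    Real.rpow_le_rpow_of_nonpos (by positivity) (by linarith) (by linarith)
  have e2 : (((t:ℝ) + 1) / 9) ^ (b - 1) = ((t:ℝ) + 1) ^ (b - 1) * 9 ^ (1 - b) := by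
    rw [Real.div_rpow ht0.le (by norm_num)]
    have : (1:ℝ) - b = -(b - 1) := by ring
    rw [this, Real.rpow_neg (by norm_num : (0:ℝ) ≤ 9)]
    rfl
  have e3 : (κ:ℝ) ^ (-b) ≤ ((R:ℝ) / 9) ^ (-b) :=
    Real.rpow_le_rpow_of_nonpos (by positivity) (by linarith) (by linarith)
  have e4 : ((R:ℝ) / 9) ^ (-b) = (R:ℝ) ^ (-b) * 9 ^ b := by
    rw [Real.div_rpow hR0.le (by norm_num), Real.rpow_neg (by norm_num : (0:ℝ) ≤ 9),
      div_inv_eq_mul]
  have e5 : (9:ℝ) ^ (1 - b) * 9 ^ b = 9 := by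
    rw [← Real.rpow_add (by norm_num)]
    norm_num
  have e6 : ((d:ℝ) / κ) ^ b * (9 / (R * d)) = (9 / R) * ((d:ℝ) ^ (b - 1) * (κ:ℝ) ^ (-b)) := by
    rw [Real.div_rpow hd0.le hκ0.le, Real.rpow_sub hd0, Real.rpow_one, Real.rpow_neg hκ0.le]
    field_simp
  rw [e6]
  have h9 : (0:ℝ) ≤ 9 / R := by positivity
  calc (9 / R) * ((d:ℝ) ^ (b - 1) * (κ:ℝ) ^ (-b)) ≤
      (9 / R) * ((((t:ℝ) + 1) ^ (b - 1) * 9 ^ (1 - b)) * ((R:ℝ) ^ (-b) * 9 ^ b)) := by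
        apply mul_le_mul_of_nonneg_left _ h9
        rw [← e2, ← e4]
        exact mul_le_mul e1 e3 (by positivity) (by positivity)
    _ = (9 / R) * (((t:ℝ) + 1) ^ (b - 1) * (R:ℝ) ^ (-b)) * ((9:ℝ) ^ (1 - b) * 9 ^ b) := by ring
    _ = _ := by
        rw [e5]
        ring

/-- the sum of powers -/
theorem sum_pow {b : ℝ} (hb : 0 < b) (hb1 : b ≤ 1) (n : ℕ) :
    ∑ s ∈ Finset.range n, ((s:ℝ) + 1) ^ (b - 1) ≤ (n:ℝ) ^ b / b := by
  induction n with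
  | zero =>
    simp [Real.zero_rpow hb.ne']
  | succ n ih =>
    rw [Finset.sum_range_succ]
    have hn0 : (0:ℝ) < (n:ℝ) + 1 := by positivity
    have h1 : (n:ℝ) ^ b ≤ ((n:ℝ) + 1) ^ b - b * ((n:ℝ) + 1) ^ (b - 1) := by
      have h2 := rpow_one_add_le_one_add_mul_self (s := -1 / ((n:ℝ) + 1)) (p := b) (by
        rw [le_div_iff₀ hn0]
        have : (0:ℝ) ≤ n := Nat.cast_nonneg n
        linarith) hb.le hb1
      have h3 : (1:ℝ) + -1 / ((n:ℝ) + 1) = n / ((n:ℝ) + 1) := by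
        field_simp
        ring
      rw [h3, Real.div_rpow (Nat.cast_nonneg n) hn0.le, div_le_iff₀ (by positivity)] at h2
      refine h2.trans (le_of_eq ?_)
      rw [Real.rpow_sub hn0, Real.rpow_one]
      field_simp
      ring
    push_cast
    rw [le_div_iff₀ hb] at ih ⊢
    rw [add_mul]
    linarith

/-- summing a bound by the depth -/
theorem sum_depth_S {R : ℕ} (hR : 64 ≤ R) (f : Edg → ℝ) {K b : ℝ} (hK : 0 ≤ K) (hb : 0 < b)
    (hb1 : b ≤ 1) (hf : ∀ e ∈ An R (2 * R), f e ≤ K * ((tt R e : ℝ) + 1) ^ (b - 1)) :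
    ∑ e ∈ An R (2 * R), f e ≤ K * (65 * R) * ((((R + 1 : ℕ) : ℝ)) ^ b / b) := by
  classical
  calc ∑ e ∈ An R (2 * R), f e ≤ ∑ e ∈ An R (2 * R), K * ((tt R e : ℝ) + 1) ^ (b - 1) :=
        Finset.sum_le_sum hf
    _ = ∑ s ∈ Finset.range (R + 1), ∑ e ∈ (An R (2 * R)).filter (fun e => tt R e = s),
          K * ((tt R e : ℝ) + 1) ^ (b - 1) := by
        symm
        apply Finset.sum_fiberwise_of_maps_to
        intro e he
        rw [Finset.mem_range]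
        have := tt_le he
        omega
    _ ≤ ∑ s ∈ Finset.range (R + 1), K * (65 * R) * (((s:ℝ) + 1) ^ (b - 1)) := by
        apply Finset.sum_le_sum
        intro s _
        have h1 : ∑ e ∈ (An R (2 * R)).filter (fun e => tt R e = s),
            K * ((tt R e : ℝ) + 1) ^ (b - 1) =
            (((An R (2 * R)).filter (fun e => tt R e = s)).card : ℝ) *
              (K * ((s:ℝ) + 1) ^ (b - 1)) := by
          rw [← nsmul_eq_mul, ← Finset.sum_const]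
          apply Finset.sum_congr rfl
          intro e he
          rw [Finset.mem_filter] at he
          rw [he.2]
        rw [h1]
        have h2 : (((An R (2 * R)).filter (fun e => tt R e = s)).card : ℝ) ≤ 65 * R := by
          exact_mod_cast layer_card hR s
        have h3 : 0 ≤ K * ((s:ℝ) + 1) ^ (b - 1) := by positivity
        calc _ ≤ (65 * R) * (K * ((s:ℝ) + 1) ^ (b - 1)) := mul_le_mul_of_nonneg_right h2 h3
          _ = _ := by ring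
    _ = K * (65 * R) * ∑ s ∈ Finset.range (R + 1), ((s:ℝ) + 1) ^ (b - 1) := by
        rw [Finset.mul_sum]
    _ ≤ _ := mul_le_mul_of_nonneg_left (sum_pow hb hb1 (R + 1)) (by positivity)

/-- the edges near the boundary -/
theorem triv_real_S {C b c h : ℝ} (hC : 0 < C) (hb : 0 < b) (hc : 0 < c)
    (hbc : b + 3 / 4 * c ≤ 1 / 4) (hh : 0 < h) (hh1 : h ≤ 1) {R κ t : ℕ} (hR : 64 ≤ R)
    (hκ : κ = R / 8) (ht : t ≤ 3) :
    C * (κ:ℝ) ^ (-(5/4) : ℝ) ≤ (4 * 9 ^ (5/4 : ℝ) * C *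
      ((h * (R:ℝ) ^ (3 / 4 : ℝ)) ^ (-c) * ((R:ℝ) ^ (-b) / R))) * ((t:ℝ) + 1) ^ (b - 1) := by
  have hR1 : (1:ℝ) ≤ R := by exact_mod_cast (by omega : 1 ≤ R)
  have hR0 : (0:ℝ) < R := by linarith
  have hκ0 : (0:ℝ) < κ := by exact_mod_cast (by omega : 0 < κ)
  have hRκ : (R:ℝ) ≤ 9 * κ := by exact_mod_cast (by omega : R ≤ 9 * κ)
  have e1 : (κ:ℝ) ^ (-(5/4) : ℝ) ≤ (R / 9 : ℝ) ^ (-(5/4) : ℝ) :=
    Real.rpow_le_rpow_of_nonpos (by positivity) (by linarith) (by norm_num)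
  have e2 : (R / 9 : ℝ) ^ (-(5/4) : ℝ) = 9 ^ (5/4 : ℝ) * (R:ℝ) ^ (-(5/4) : ℝ) := by
    rw [Real.div_rpow hR0.le (by norm_num), Real.rpow_neg (by norm_num : (0:ℝ) ≤ 9),
      div_inv_eq_mul]
    ring
  have e3 : (R:ℝ) ^ (-(5/4) : ℝ) ≤ (h * (R:ℝ) ^ (3 / 4 : ℝ)) ^ (-c) * ((R:ℝ) ^ (-b) / R) := by
    have e4 : (R:ℝ) ^ (-(3 / 4 * c)) ≤ (h * (R:ℝ) ^ (3 / 4 : ℝ)) ^ (-c) := by
      have e5 : (R:ℝ) ^ (-(3 / 4 * c)) = ((R:ℝ) ^ (3 / 4 : ℝ)) ^ (-c) := by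
        rw [← Real.rpow_mul hR0.le]
        congr 1
        ring
      rw [e5]
      apply Real.rpow_le_rpow_of_nonpos (by positivity) _ (by linarith)
      have : (0:ℝ) < (R:ℝ) ^ (3 / 4 : ℝ) := by positivity
      nlinarith
    have e6 : (R:ℝ) ^ (-b) / R = (R:ℝ) ^ (-b - 1) := by
      rw [Real.rpow_sub hR0, Real.rpow_one]
    calc (R:ℝ) ^ (-(5/4) : ℝ) ≤ (R:ℝ) ^ (-(3 / 4 * c) + (-b - 1)) :=
          Real.rpow_le_rpow_of_exponent_le hR1 (by linarith)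
      _ = (R:ℝ) ^ (-(3 / 4 * c)) * ((R:ℝ) ^ (-b) / R) := by
          rw [Real.rpow_add hR0, e6]
      _ ≤ _ := mul_le_mul_of_nonneg_right e4 (by positivity)
  have ht' : (t:ℝ) + 1 ≤ 4 := by
    have : (t:ℝ) ≤ 3 := by exact_mod_cast ht
    linarith
  have ht0 : (0:ℝ) < (t:ℝ) + 1 := by positivity
  have ht1 : (1:ℝ) ≤ (t:ℝ) + 1 := by
    have : (0:ℝ) ≤ t := Nat.cast_nonneg t
    linarith
  have e7 : (1:ℝ) / 4 ≤ ((t:ℝ) + 1) ^ (b - 1) := by
    have e8 : ((t:ℝ) + 1) ^ (-1 : ℝ) ≤ ((t:ℝ) + 1) ^ (b - 1) :=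
      Real.rpow_le_rpow_of_exponent_le ht1 (by linarith)
    refine le_trans ?_ e8
    rw [Real.rpow_neg_one, ← one_div]
    exact one_div_le_one_div_of_le ht0 ht'
  set Z : ℝ := (h * (R:ℝ) ^ (3 / 4 : ℝ)) ^ (-c) * ((R:ℝ) ^ (-b) / R) with hZ
  have hZ0 : 0 < Z := by positivity
  have h5 : C * (κ:ℝ) ^ (-(5/4) : ℝ) ≤ C * (9 ^ (5/4 : ℝ) * Z) := by
    apply mul_le_mul_of_nonneg_left _ hC.le
    rw [e2] at e1
    exact e1.trans (mul_le_mul_of_nonneg_left e3 (by positivity))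
  refine h5.trans ?_
  have h6 : C * (9 ^ (5/4 : ℝ) * Z) = (4 * 9 ^ (5/4 : ℝ) * C * Z) * (1 / 4) := by ring
  rw [h6]
  exact mul_le_mul_of_nonneg_left e7 (by positivity)

/-- the sum over an annulus, sharp form -/
theorem annS (ha42 : Pool.Agent.Y554.SN.S_A42S) : Pool.Agent.Y554.SN.S_ASS := by
  obtain ⟨C1, c1, hC1, hc1, H1⟩ := P2_A4_outer
  obtain ⟨C2, hC2, H2⟩ := P2_A4_triv
  obtain ⟨C3, c3, hC3, hc3, H3⟩ := ha42
  obtain ⟨b, hbdef⟩ : ∃ b : ℝ, b = min (c1 / 2) (1 / 8) := ⟨_, rfl⟩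
  have hb : 0 < b := by
    rw [hbdef]
    exact lt_min (by linarith) (by norm_num)
  have hb8 : b ≤ 1 / 8 := by
    rw [hbdef]
    exact min_le_right _ _
  have hbc1 : 2 * b ≤ c1 := by
    have : b ≤ c1 / 2 := by
      rw [hbdef]
      exact min_le_left _ _
    linarith
  obtain ⟨c, hcdef⟩ : ∃ c : ℝ, c = min c3 (4 / 3 * b) := ⟨_, rfl⟩
  have hc : 0 < c := by
    rw [hcdef]
    exact lt_min hc3 (by linarith)
  have hcc3 : c ≤ c3 := by
    rw [hcdef]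
    exact min_le_left _ _
  have hcb : 3 / 4 * c ≤ b := by
    have : c ≤ 4 / 3 * b := by
      rw [hcdef]
      exact min_le_right _ _
    linarith
  set K0 : ℝ := 81 * 9 ^ b * C1 * C3 + 4 * 9 ^ (5/4 : ℝ) * C2 with hK0
  have hK00 : 0 < K0 := by positivity
  refine ⟨K0 * 65 * (2 / b), c, by positivity, hc, ?_⟩
  intro a' R N' S hR ha hN hS x hx0 hx
  have hR1 : (1:ℝ) ≤ R := by exact_mod_cast (by omega : 1 ≤ R)
  have hR0 : (0:ℝ) < R := by linarith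
  have hx1 : x ≤ 1 := hx.le
  have hh : 0 < 1 - x := by linarith
  have hh1 : 1 - x ≤ 1 := by linarith
  obtain ⟨κ, hκ⟩ : ∃ κ, κ = R / 8 := ⟨_, rfl⟩
  have hκ1 : 1 ≤ κ := by omega
  have hprof : ∀ y : ℝ, 0 ≤ y → y ≤ 1 → ∀ e' ∈ S,
      0 ≤ (fun e' : Edg => if e' ∈ An a' N' then y else 1) e' ∧
      (fun e' : Edg => if e' ∈ An a' N' then y else 1) e' ≤ 1 := by
    intro y h0 h1 e' _
    simp only
    split_ifs
    · exact ⟨h0, h1⟩
    · exact ⟨zero_le_one, le_rfl⟩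
  have hcont : ∀ e : Edg, Continuous fun y : ℝ =>
      P2 (fun e' => if e' ∈ An a' N' then y else 1) S
          (fun F => A4e κ e ↑F ∨ A4d κ e F) (fun F => A4e κ e ↑F ∨ A4d κ e F) := by
    intro e
    apply P2_cont (fun (y : ℝ) (e' : Edg) => if e' ∈ An a' N' then y else 1)
    intro e'
    by_cases h : e' ∈ An a' N'
    · simp only [if_pos h]
      exact continuous_id
    · simp only [if_neg h]
      exact continuous_const
  rw [← hκ]
  obtain ⟨Q, hQ⟩ : ∃ Q : ℝ, Q = ((1 - x) * (R:ℝ) ^ (3 / 4 : ℝ)) ^ (-c) := ⟨_, rfl⟩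
  have hQ0 : 0 < Q := by
    rw [hQ]
    positivity
  obtain ⟨W, hW⟩ : ∃ W : ℝ, W = (R:ℝ) ^ (-b) / R := ⟨_, rfl⟩
  have hW0 : 0 < W := by
    rw [hW]
    positivity
  have main : ∀ e ∈ An R (2 * R), (∫ y in (0:ℝ)..x,
        P2 (fun e' => if e' ∈ An a' N' then y else 1) S
          (fun F => A4e κ e ↑F ∨ A4d κ e F)
          (fun F => A4e κ e ↑F ∨ A4d κ e F)) ≤
      (K0 * (Q * W)) * ((tt R e : ℝ) + 1) ^ (b - 1) := by
    intro e he
    have hSe : ebx e (κ + 2) ⊆ S := by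
      rw [hκ]
      exact hS e he
    have ht0 : (0:ℝ) < (tt R e : ℝ) + 1 := by positivity
    have htb : (0:ℝ) < ((tt R e : ℝ) + 1) ^ (b - 1) := by positivity
    by_cases ht : tt R e ≤ 3
    · have h1 : (∫ y in (0:ℝ)..x,
        P2 (fun e' => if e' ∈ An a' N' then y else 1) S
          (fun F => A4e κ e ↑F ∨ A4d κ e F)
          (fun F => A4e κ e ↑F ∨ A4d κ e F)) ≤ ∫ _ in (0:ℝ)..x, C2 * (κ:ℝ) ^ (-(5/4) : ℝ) := by
        apply intervalIntegral.integral_mono_on hx0 ((hcont e).intervalIntegrable _ _)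
          (continuous_const.intervalIntegrable _ _)
        intro y hy
        exact H2 _ S e κ (hprof y hy.1 (hy.2.trans hx1)) hSe hκ1
      have h2 : (∫ _ in (0:ℝ)..x, C2 * (κ:ℝ) ^ (-(5/4) : ℝ)) ≤ C2 * (κ:ℝ) ^ (-(5/4) : ℝ) := by
        rw [intervalIntegral.integral_const, sub_zero, smul_eq_mul]
        have : 0 ≤ C2 * (κ:ℝ) ^ (-(5/4) : ℝ) := by positivity
        exact mul_le_of_le_one_left this hx1
      have h3 := triv_real_S hC2 hb hc (by linarith) hh hh1 hR hκ ht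
      rw [← hQ, ← hW] at h3
      refine (h1.trans h2).trans (h3.trans ?_)
      apply mul_le_mul_of_nonneg_right _ htb.le
      apply mul_le_mul_of_nonneg_right _ (by positivity)
      rw [hK0]
      have : 0 < 81 * 9 ^ b * C1 * C3 := by positivity
      linarith
    · obtain ⟨d, hd⟩ : ∃ d, d = min (tt R e - 3) κ := ⟨_, rfl⟩
      have hd1 : 1 ≤ d := by omega
      have hdκ : d ≤ κ := by omega
      have hg := good (d := d) ha hN he (by omega)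
      have hc2 : Continuous (fun y : ℝ => (C1 * ((d:ℝ) / κ) ^ (1 + c1)) * a42 y d) :=
        continuous_const.mul (a42_cont d)
      have h1 : (∫ y in (0:ℝ)..x,
        P2 (fun e' => if e' ∈ An a' N' then y else 1) S
          (fun F => A4e κ e ↑F ∨ A4d κ e F)
          (fun F => A4e κ e ↑F ∨ A4d κ e F)) ≤
          ∫ y in (0:ℝ)..x, (C1 * ((d:ℝ) / κ) ^ (1 + c1)) * a42 y d := by
        apply intervalIntegral.integral_mono_on hx0 ((hcont e).intervalIntegrable _ _)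
          (hc2.intervalIntegrable _ _)
        intro y hy
        have h2 := H1 (fun e' => if e' ∈ An a' N' then y else 1) S e d κ y
          (hprof y hy.1 (hy.2.trans hx1)) hy.1 (hy.2.trans hx1) hSe hd1 hdκ
          (fun e' he' => by simp only [if_pos (hg e' he')])
        refine h2.trans (le_of_eq ?_)
        ring
      rw [intervalIntegral.integral_const_mul] at h1
      have hI0 : 0 ≤ ∫ y in (0:ℝ)..x, a42 y d :=
        intervalIntegral.integral_nonneg hx0 (fun y hy => a42_nonneg hy.1 (hy.2.trans hx1) d)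
      obtain ⟨b1, b2⟩ := H3 d hd1 x hx0 hx
      have hd0 : (0:ℝ) < d := by exact_mod_cast hd1
      have h2 := key_real_S (g := (d:ℝ) ^ 2 * (∫ y in (0:ℝ)..x, a42 y d)) hb hc hcc3 hcb hbc1
        hR hκ hd1 hdκ (by positivity) hC3 b1 hh b2
      rw [← hQ] at h2
      have e1 : (d:ℝ) ^ 2 * (∫ y in (0:ℝ)..x, a42 y d) / (d:ℝ) ^ 2 =
          ∫ y in (0:ℝ)..x, a42 y d := by
        field_simp
      rw [e1] at h2
      have h3 := depth_real (t := tt R e) hb (by linarith) hR hκ hd1 (by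
        have := mm_bounds he
        unfold tt at hd ht ⊢
        omega)
      rw [← hW] at h3
      calc _ ≤ C1 * ((d:ℝ) / κ) ^ (1 + c1) * ∫ y in (0:ℝ)..x, a42 y d := h1
        _ = C1 * (((d:ℝ) / κ) ^ (1 + c1) * ∫ y in (0:ℝ)..x, a42 y d) := by ring
        _ ≤ C1 * (9 ^ b * C3 * Q * (((d:ℝ) / κ) ^ b * (9 / (R * d)))) :=
            mul_le_mul_of_nonneg_left h2 hC1.le
        _ ≤ C1 * (9 ^ b * C3 * Q * (81 * W * ((tt R e : ℝ) + 1) ^ (b - 1))) :=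
            mul_le_mul_of_nonneg_left (mul_le_mul_of_nonneg_left h3 (by positivity)) hC1.le
        _ = (81 * 9 ^ b * C1 * C3 * (Q * W)) * ((tt R e : ℝ) + 1) ^ (b - 1) := by ring
        _ ≤ _ := by
            apply mul_le_mul_of_nonneg_right _ htb.le
            apply mul_le_mul_of_nonneg_right _ (by positivity)
            rw [hK0]
            have : 0 < 4 * 9 ^ (5/4 : ℝ) * C2 := by positivity
            linarith
  have hsum := sum_depth_S hR _ (K := K0 * (Q * W)) (b := b) (by positivity) hb (by linarith) main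
  refine hsum.trans ?_
  rw [← hQ]
  have e5 : (((R + 1 : ℕ) : ℝ)) ^ b ≤ 2 * (R:ℝ) ^ b := by
    have e6 : (((R + 1 : ℕ) : ℝ)) ≤ 2 * R := by
      push_cast
      linarith
    calc (((R + 1 : ℕ) : ℝ)) ^ b ≤ (2 * (R:ℝ)) ^ b :=
          Real.rpow_le_rpow (by positivity) e6 hb.le
      _ = 2 ^ b * (R:ℝ) ^ b := Real.mul_rpow (by norm_num) hR0.le
      _ ≤ 2 * (R:ℝ) ^ b := by
          apply mul_le_mul_of_nonneg_right _ (by positivity)
          calc (2:ℝ) ^ b ≤ 2 ^ (1:ℝ) :=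
                Real.rpow_le_rpow_of_exponent_le (by norm_num) (by linarith)
            _ = 2 := Real.rpow_one 2
  have e7 : W * R * (R:ℝ) ^ b = 1 := by
    rw [hW, div_mul_cancel₀ _ hR0.ne', ← Real.rpow_add hR0]
    simp
  calc K0 * (Q * W) * (65 * R) * ((((R + 1 : ℕ) : ℝ)) ^ b / b) ≤
      K0 * (Q * W) * (65 * R) * ((2 * (R:ℝ) ^ b) / b) := by
        apply mul_le_mul_of_nonneg_left _ (by positivity)
        exact div_le_div_of_nonneg_right e5 hb.le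
    _ = K0 * 65 * (2 / b) * Q * (W * R * (R:ℝ) ^ b) := by ring
    _ = _ := by rw [e7, mul_one]

end Pool.Agent.Y785.SN
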